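import Pool.Agent.Q178.Snf.AbelMain

set_option autoImplicit false

/-!
snf-countability of one level of a free Abelian topological group passes to all levels.
-/

universe u

namespace Pool.Agent.Results.MP_59a37c_gt.SnfAllLevels

open Q178.Snf

/-- **snf-countability of the levels of free Abelian topological groups.** Let `X` be a Tychonoff
`k`-space with a regular `G_δ`-diagonal. If `A_N(X)` is snf-countable for one `N ≥ 2` (for example
for `N = 2` or `N = 4`), then `A_n(X)` is snf-countable for every `n`. -/
theorem result (X : Type u) [TopologicalSpace X] [T35Space X] (hk : IsKSpace X)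
    (hd : HasRegularGDeltaDiagonal X) (N : ℕ) (hN : 2 ≤ N) (h : SnfCountable (An X N)) :
    ∀ n : ℕ, SnfCountable (An X n) :=
  fun n => snfCountable_An hk hd hN h n

end Pool.Agent.Results.MP_59a37c_gt.SnfAllLevels
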